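import Mathlib
import Pool.Agent.H923R2.DegMap

set_option autoImplicit false

open MvPolynomial H923R2.DegMap

namespace Pool.Agent.Results.MP_3d9fc2_ag.FinitelyManyRecurrencesFail

/-- Sanity check: the degree of the `n`-th iterate is well defined. -/
theorem degree_well_defined {K : Type*} [Field K] {N : ℕ} (f g g' : RatMap K N) (n : ℕ)
    (hg : f.IsIterate n g) (hg' : f.IsIterate n g') : g.degree = g'.degree := by
  obtain ⟨c, hc, h⟩ := hg
  obtain ⟨c', _, h'⟩ := hg'
  exact RatMap.degree_unique g g' c c' hc (fun i => by rw [← h i, ← h' i])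

/-- Degree sequences of dominant rational self-maps of `ℙ^N` need not be given by finitely many
linear recurrences: for every field `K` and every `N ≥ 4` there is a dominant rational map
`f : ℙ^N ⇢ ℙ^N`, which is moreover a polynomial endomorphism of `𝔸^N` with
`3 ^ n ≤ deg (f^n) ≤ 53 * 3 ^ n`, such that there are no finitely many linear recurrence sequences
`L^(1), …, L^(r)` over `ℂ` and no selection `ι` with `deg (f^n) = L^(ι n)_n` for all `n ≥ 1`. -/
theorem result (K : Type*) [Field K] (N : ℕ) (hN : 4 ≤ N) :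
    ∃ f : RatMap K N, f.Dominant ∧ f.poly 0 = X 0 ^ f.degree ∧
      ∃ e : ℕ → ℕ, f.IsDegreeSequence e ∧ (∀ n, 3 ^ n ≤ e n ∧ e n ≤ 53 * 3 ^ n) ∧
        ¬ FinitelyManyRec e :=
  H923R2.DegMap.main K N hN

end Pool.Agent.Results.MP_3d9fc2_ag.FinitelyManyRecurrencesFail
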